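import Pool.Agent.H6.N4D.TA

/-!
# MP_c59857_nt, row POS of the board n4d_modules: spectral positivity
-/

set_option autoImplicit false

open Finset

namespace Pool.Agent.H59.N4D

open Pool.Agent.H6.N4D

theorem pos_cont_ee (a : ℝ) : Continuous fun ξ : ℝ => ee (a * ξ) := by
  unfold ee
  fun_prop

theorem pos_int (n : ℤ) : ∫ ξ in (0 : ℝ)..1, ee (n * ξ) = if n = 0 then 1 else 0 := by
  split_ifs with h
  · subst h
    simp [ee]
  · have h1 : ∀ ξ : ℝ, ee (n * ξ) = Complex.exp ((2 * Real.pi * n * Complex.I) * ξ) := by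
      intro ξ
      unfold ee
      congr 1
      push_cast
      ring
    have hc : (2 * Real.pi * n * Complex.I : ℂ) ≠ 0 := by
      have hn : (n : ℂ) ≠ 0 := by exact_mod_cast h
      have hp : (Real.pi : ℂ) ≠ 0 := by exact_mod_cast Real.pi_ne_zero
      have hI := Complex.I_ne_zero
      exact mul_ne_zero (mul_ne_zero (mul_ne_zero two_ne_zero hp) hn) hI
    simp only [h1]
    rw [integral_exp_mul_complex hc]
    have h2 : Complex.exp ((2 * Real.pi * n * Complex.I : ℂ) * ((1 : ℝ) : ℂ)) = 1 := by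
      rw [Complex.exp_eq_one_iff]
      exact ⟨n, by push_cast; ring⟩
    rw [h2]
    simp

theorem pos_fourier (g : ℤ → ℂ) (F : Finset ℤ) (hF : ∀ t, t ∉ F → g t = 0) (l : ℤ) :
    ∫ ξ in (0 : ℝ)..1, ((∑ t ∈ F, g t * ee ((-t : ℝ) * ξ)) *
      (starRingEnd ℂ) (∑ t ∈ F, g t * ee ((-t : ℝ) * ξ))) * ee (l * ξ) =
      ∑ t ∈ F, g (t + l) * (starRingEnd ℂ) (g t) := by
  have hconj : ∀ x : ℝ, (starRingEnd ℂ) (ee x) = ee (-x) := by
    intro x
    unfold ee
    rw [← Complex.exp_conj]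
    congr 1
    rw [map_mul, Complex.conj_I, Complex.conj_ofReal]
    push_cast
    ring
  have h1 : ∀ ξ : ℝ, ((∑ t ∈ F, g t * ee ((-t : ℝ) * ξ)) *
      (starRingEnd ℂ) (∑ t ∈ F, g t * ee ((-t : ℝ) * ξ))) * ee (l * ξ) =
      ∑ t ∈ F, ∑ s ∈ F, (g s * (starRingEnd ℂ) (g t)) * ee (((t - s + l : ℤ) : ℝ) * ξ) := by
    intro ξ
    rw [map_sum, Finset.sum_mul_sum, Finset.sum_comm, Finset.sum_mul]
    refine Finset.sum_congr rfl fun t _ => ?_
    rw [Finset.sum_mul]
    refine Finset.sum_congr rfl fun s _ => ?_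
    rw [map_mul, hconj]
    have h2 : ee (((t - s + l : ℤ) : ℝ) * ξ) =
        ee ((-s : ℝ) * ξ) * ee (-((-t : ℝ) * ξ)) * ee (l * ξ) := by
      rw [← ee_add, ← ee_add]
      congr 1
      push_cast
      ring
    rw [h2]
    ring
  simp only [h1]
  rw [intervalIntegral.integral_finsetSum]
  · refine Finset.sum_congr rfl fun t _ => ?_
    rw [intervalIntegral.integral_finsetSum]
    · simp only [intervalIntegral.integral_const_mul, pos_int]
      by_cases htl : t + l ∈ F
      · rw [Finset.sum_eq_single (t + l)]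
        · rw [if_pos (by ring), mul_one]
        · intro s _ hs
          rw [if_neg (fun h => hs (by linarith)), mul_zero]
        · intro h
          exact absurd htl h
      · rw [hF _ htl, zero_mul]
        refine Finset.sum_eq_zero fun s hs => ?_
        rw [if_neg, mul_zero]
        intro h
        apply htl
        have : s = t + l := by linarith
        rwa [← this]
    · intro s _
      exact ((pos_cont_ee _).const_mul _).intervalIntegrable _ _
  · intro t _
    refine Continuous.intervalIntegrable ?_ _ _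
    exact continuous_finsetSum _ fun s _ => (pos_cont_ee _).const_mul _

theorem pf_POS : T_POS := by
  intro g hg ι s c₀ c l hpos
  set F : Finset ℤ := hg.toFinset with hFdef
  have hF : ∀ t, t ∉ F → g t = 0 := by
    intro t ht
    by_contra h
    exact ht (by rw [hFdef, Set.Finite.mem_toFinset]; exact h)
  set G : ℝ → ℂ := fun ξ => ∑ t ∈ F, g t * ee ((-t : ℝ) * ξ) with hG
  have hGc : Continuous G := continuous_finsetSum _ fun t _ => (pos_cont_ee _).const_mul _
  have hre : ∀ m : ℤ, ∫ ξ in (0 : ℝ)..1, ‖G ξ‖ ^ 2 * Real.cos (2 * Real.pi * ξ * m) =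
      ∑ t ∈ F, (g (t + m) * (starRingEnd ℂ) (g t)).re := by
    intro m
    have h1 := pos_fourier g F hF m
    have hc : Continuous fun ξ : ℝ => (G ξ * (starRingEnd ℂ) (G ξ)) * ee (m * ξ) :=
      (hGc.mul (Complex.continuous_conj.comp hGc)).mul (pos_cont_ee _)
    have h2 := Complex.reCLM.intervalIntegral_comp_comm
      (hc.intervalIntegrable (μ := MeasureTheory.volume) 0 1)
    rw [show (∫ ξ in (0 : ℝ)..1, (G ξ * (starRingEnd ℂ) (G ξ)) * ee (m * ξ)) = _ from h1] at h2
    rw [Complex.reCLM_apply, Complex.re_sum] at h2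
    rw [← h2]
    refine intervalIntegral.integral_congr fun ξ _ => ?_
    show ‖G ξ‖ ^ 2 * Real.cos (2 * Real.pi * ξ * m) = ((G ξ * (starRingEnd ℂ) (G ξ)) * ee (m * ξ)).re
    rw [Complex.mul_conj', ← Complex.ofReal_pow, Complex.re_ofReal_mul]
    unfold ee
    rw [Complex.exp_ofReal_mul_I_re]
    congr 2
    ring
  have h0 : ∑' t : ℤ, ‖g t‖ ^ 2 = ∫ ξ in (0 : ℝ)..1, ‖G ξ‖ ^ 2 := by
    have h1 := hre 0
    simp only [Int.cast_zero, mul_zero, Real.cos_zero, mul_one, add_zero] at h1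
    rw [h1, tsum_eq_sum (s := F)]
    · refine Finset.sum_congr rfl fun t _ => ?_
      rw [Complex.mul_conj', ← Complex.ofReal_pow, Complex.ofReal_re]
    · intro t ht
      rw [hF t ht, norm_zero]
      norm_num
  have hl : ∀ m : ℤ, ∑' t : ℤ, (g (t + m) * (starRingEnd ℂ) (g t)).re =
      ∫ ξ in (0 : ℝ)..1, ‖G ξ‖ ^ 2 * Real.cos (2 * Real.pi * ξ * m) := by
    intro m
    rw [hre m, tsum_eq_sum (s := F)]
    intro t ht
    rw [hF t ht, map_zero, mul_zero, Complex.zero_re]
  rw [h0]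
  simp only [hl]
  have hcc : ∀ m : ℤ, Continuous fun ξ : ℝ => ‖G ξ‖ ^ 2 * Real.cos (2 * Real.pi * ξ * m) := by
    intro m
    have : Continuous fun ξ : ℝ => Real.cos (2 * Real.pi * ξ * m) := by fun_prop
    exact (hGc.norm.pow 2).mul this
  have hfin : c₀ * ∫ ξ in (0 : ℝ)..1, ‖G ξ‖ ^ 2 = ∫ ξ in (0 : ℝ)..1, c₀ * ‖G ξ‖ ^ 2 := by
    rw [intervalIntegral.integral_const_mul]
  have hfin2 : ∑ i ∈ s, c i * ∫ ξ in (0 : ℝ)..1, ‖G ξ‖ ^ 2 * Real.cos (2 * Real.pi * ξ * l i) =
      ∫ ξ in (0 : ℝ)..1, ∑ i ∈ s, c i * (‖G ξ‖ ^ 2 * Real.cos (2 * Real.pi * ξ * l i)) := by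
    rw [intervalIntegral.integral_finsetSum]
    · refine Finset.sum_congr rfl fun i _ => ?_
      rw [intervalIntegral.integral_const_mul]
    · intro i _
      exact (continuous_const.mul (hcc (l i))).intervalIntegrable _ _
  rw [hfin, hfin2, ← intervalIntegral.integral_add]
  · refine intervalIntegral.integral_nonneg zero_le_one fun ξ _ => ?_
    have h3 : c₀ * ‖G ξ‖ ^ 2 + ∑ i ∈ s, c i * (‖G ξ‖ ^ 2 * Real.cos (2 * Real.pi * ξ * l i)) =
        ‖G ξ‖ ^ 2 * (c₀ + ∑ i ∈ s, c i * Real.cos (2 * Real.pi * ξ * l i)) := by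
      rw [mul_add, Finset.mul_sum]
      congr 1
      · ring
      · exact Finset.sum_congr rfl fun i _ => by ring
    rw [h3]
    exact mul_nonneg (by positivity) (hpos ξ)
  · exact (continuous_const.mul (hGc.norm.pow 2)).intervalIntegrable _ _
  · refine Continuous.intervalIntegrable ?_ _ _
    exact continuous_finsetSum _ fun i _ => continuous_const.mul (hcc (l i))

end Pool.Agent.H59.N4D
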